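import Pool.Agent.Helper354.CWidth

set_option autoImplicit false

/-!
Palindromic width of finitely generated soluble groups.
-/

namespace Pool.Agent.Helper100.PalWidth

open Subgroup
open scoped commutatorElement
open Pool.Agent.Helper354.CWidth

/-- `g` is a product of at most `N` palindromes over `S` -/
def PP {G : Type*} [Group G] (S : Set G) (N : ℕ) (g : G) : Prop :=
  ∃ ps : List (List G), ps.length ≤ N ∧
    (∀ w ∈ ps, (∀ x ∈ w, x ∈ S ∨ x⁻¹ ∈ S) ∧ w.reverse = w) ∧ (ps.map List.prod).prod = g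

section PP
variable {G : Type*} [Group G] {S : Set G}

theorem PP.one (n : ℕ) : PP S n (1 : G) := ⟨[], by simp, by simp, by simp⟩

theorem PP.mono {m n : ℕ} (h : m ≤ n) {g : G} (hg : PP S m g) : PP S n g := by
  obtain ⟨ps, h1, h2, h3⟩ := hg
  exact ⟨ps, h1.trans h, h2, h3⟩

theorem PP.mul {m n : ℕ} {g h : G} (hg : PP S m g) (hh : PP S n h) : PP S (m + n) (g * h) := by
  obtain ⟨ps, h1, h2, h3⟩ := hg
  obtain ⟨qs, k1, k2, k3⟩ := hh
  refine ⟨ps ++ qs, ?_, ?_, ?_⟩
  · rw [List.length_append]; omega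
  · intro w hw
    rcases List.mem_append.mp hw with h | h
    · exact h2 w h
    · exact k2 w h
  · rw [List.map_append, List.prod_append, h3, k3]

/-- a single palindrome -/
theorem PP.pal (w : List G) (h1 : ∀ x ∈ w, x ∈ S ∨ x⁻¹ ∈ S) (h2 : w.reverse = w) :
    PP S 1 w.prod := ⟨[w], by simp, by simpa using ⟨h1, h2⟩, by simp⟩

/-- a single palindrome, inverted -/
theorem PP.pal_inv (w : List G) (h1 : ∀ x ∈ w, x ∈ S ∨ x⁻¹ ∈ S) (h2 : w.reverse = w) :
    PP S 1 w.prod⁻¹ := by
  rw [List.prod_inv_reverse]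
  refine PP.pal _ ?_ ?_
  · intro x hx
    rw [List.mem_reverse, List.mem_map] at hx
    obtain ⟨y, hy, rfl⟩ := hx
    rcases h1 y hy with h | h
    · right; rwa [inv_inv]
    · left; exact h
  · rw [List.reverse_reverse, ← List.map_reverse, h2]

theorem PP.inv {n : ℕ} {g : G} (hg : PP S n g) : PP S n g⁻¹ := by
  obtain ⟨ps, h1, h2, rfl⟩ := hg
  induction ps generalizing n with
  | nil => simpa using PP.one n
  | cons p ps ih =>
    rw [List.length_cons] at h1
    have h3 := ih (n := n - 1) (by omega) (fun w hw => h2 w (List.mem_cons_of_mem _ hw))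
    have h4 := h2 p List.mem_cons_self
    rw [List.map_cons, List.prod_cons, mul_inv_rev]
    exact (h3.mul (PP.pal_inv p h4.1 h4.2)).mono (by omega)

/-- words -/
theorem exists_word (hS : closure S = ⊤) (b : G) :
    ∃ u : List G, (∀ x ∈ u, x ∈ S ∨ x⁻¹ ∈ S) ∧ u.prod = b := by
  have hb : b ∈ closure S := by rw [hS]; trivial
  induction hb using closure_induction with
  | mem y hy => exact ⟨[y], by simpa using Or.inl hy, by simp⟩
  | one => exact ⟨[], by simp, by simp⟩
  | mul y z _ _ hy hz =>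
    obtain ⟨u, hu, rfl⟩ := hy
    obtain ⟨v, hv, rfl⟩ := hz
    refine ⟨u ++ v, ?_, by simp⟩
    intro x hx
    rcases List.mem_append.mp hx with h | h
    · exact hu x h
    · exact hv x h
  | inv y _ hy =>
    obtain ⟨u, hu, rfl⟩ := hy
    refine ⟨(u.map (·⁻¹)).reverse, ?_, (List.prod_inv_reverse u).symm⟩
    intro x hx
    rw [List.mem_reverse, List.mem_map] at hx
    obtain ⟨y, hy, rfl⟩ := hx
    rcases hu y hy with h | h
    · right; rwa [inv_inv]
    · left; exact h

theorem PP.conj (hS : closure S = ⊤) {n : ℕ} {g : G} (hg : PP S n g) (b : G) :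
    PP S (2 * n) (b * g * b⁻¹) := by
  obtain ⟨u, hu, rfl⟩ := exists_word hS b
  have hur : ∀ x ∈ u.reverse, x ∈ S ∨ x⁻¹ ∈ S := fun x hx => hu x (List.mem_reverse.mp hx)
  obtain ⟨ps, h1, h2, rfl⟩ := hg
  induction ps generalizing n with
  | nil => simpa using PP.one (2 * n)
  | cons p ps ih =>
    rw [List.length_cons] at h1
    have h3 := ih (n := n - 1) (by omega) (fun w hw => h2 w (List.mem_cons_of_mem _ hw))
    have h4 := h2 p List.mem_cons_self
    have e : u.prod * ((p :: ps).map List.prod).prod * u.prod⁻¹ =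
        (u ++ p ++ u.reverse).prod * (u ++ u.reverse).prod⁻¹ *
          (u.prod * (ps.map List.prod).prod * u.prod⁻¹) := by
      simp only [List.map_cons, List.prod_cons, List.prod_append, mul_inv_rev]
      group
    rw [e]
    have k1 : PP S 1 (u ++ p ++ u.reverse).prod := by
      refine PP.pal _ ?_ ?_
      · intro x hx
        rcases List.mem_append.mp hx with h | h
        · rcases List.mem_append.mp h with h | h
          · exact hu x h
          · exact h4.1 x h
        · exact hur x h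
      · simp only [List.reverse_append, List.reverse_reverse, h4.2, List.append_assoc]
    have k2 : PP S 1 (u ++ u.reverse).prod⁻¹ := by
      refine PP.pal_inv _ ?_ ?_
      · intro x hx
        rcases List.mem_append.mp hx with h | h
        · exact hu x h
        · exact hur x h
      · simp only [List.reverse_append, List.reverse_reverse]
    exact ((k1.mul k2).mul h3).mono (by omega)

theorem PP.comm_left (hS : closure S = ⊤) {n : ℕ} {g : G} (hg : PP S n g) (b : G) :
    PP S (3 * n) ⁅g, b⁆ := by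
  have e : ⁅g, b⁆ = g * (b * g⁻¹ * b⁻¹) := by rw [commutatorElement_def]; group
  rw [e]
  exact (hg.mul (hg.inv.conj hS b)).mono (by omega)

theorem PP.gen {x : G} (hx : x ∈ S) : PP S 1 x := by
  have := PP.pal (S := S) [x] (by simpa using Or.inl hx) (by simp)
  simpa using this

theorem PP.gen_zpow {x : G} (hx : x ∈ S) (a : ℤ) : PP S 1 (x ^ a) := by
  have hn : ∀ n : ℕ, PP S 1 (x ^ n) := by
    intro n
    have := PP.pal (S := S) (List.replicate n x)
      (fun y hy => Or.inl (by rw [List.eq_of_mem_replicate hy]; exact hx))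
      (by simp)
    simpa using this
  obtain ⟨n, rfl | rfl⟩ := Int.eq_nat_or_neg a
  · rw [zpow_natCast]; exact hn n
  · rw [zpow_neg, zpow_natCast]; exact (hn n).inv

theorem PP.ofFn {k : ℕ} {m : ℕ} (f : Fin k → G) (hf : ∀ l, PP S m (f l)) :
    PP S (k * m) (List.ofFn f).prod := by
  induction k with
  | zero => simpa using PP.one (0 * m)
  | succ k ih =>
    rw [List.ofFn_succ, List.prod_cons]
    exact ((hf 0).mul (ih (fun l => f l.succ) (fun l => hf l.succ))).mono (by
      rw [Nat.succ_mul]; omega)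

/-- products of commutators with a generator -/
theorem PP.gens (hS : closure S = ⊤) {k : ℕ} (x : Fin k → G) (hx : ∀ l, x l ∈ S)
    (u : Fin k → G) : PP S (3 * k) (List.ofFn (fun l => ⁅x l, u l⁆)).prod := by
  have := PP.ofFn (S := S) (m := 3) (fun l => ⁅x l, u l⁆) (fun l => by
    simpa using (PP.gen (hx l)).comm_left hS (u l))
  exact this.mono (by omega)

/-- palindromic products lift along surjections -/
theorem PP.lift {G' : Type*} [Group G'] (f : G →* G') {n : ℕ}
    {g : G} (hg : PP (f '' S) n (f g)) : ∃ w : G, PP S n w ∧ w⁻¹ * g ∈ f.ker := by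
  classical
  have hσ : ∀ y : G', ∃ z : G, (y ∈ f '' S ∨ y⁻¹ ∈ f '' S) → (z ∈ S ∨ z⁻¹ ∈ S) ∧ f z = y := by
    intro y
    by_cases hy : y ∈ f '' S ∨ y⁻¹ ∈ f '' S
    · rcases hy with ⟨s, hs, rfl⟩ | ⟨s, hs, h⟩
      · exact ⟨s, fun _ => ⟨Or.inl hs, rfl⟩⟩
      · refine ⟨s⁻¹, fun _ => ⟨Or.inr (by rwa [inv_inv]), by rw [map_inv, h, inv_inv]⟩⟩
    · exact ⟨1, fun h => absurd h hy⟩
  choose σ hσ using hσ
  obtain ⟨ps, h1, h2, h3⟩ := hg
  refine ⟨((ps.map (List.map σ)).map List.prod).prod, ⟨ps.map (List.map σ), by simpa using h1, ?_,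
    rfl⟩, ?_⟩
  · intro w hw
    obtain ⟨v, hv, rfl⟩ := List.mem_map.mp hw
    obtain ⟨k1, k2⟩ := h2 v hv
    refine ⟨?_, by rw [← List.map_reverse, k2]⟩
    intro x hx
    obtain ⟨y, hy, rfl⟩ := List.mem_map.mp hx
    exact (hσ y (k1 y hy)).1
  · have key : f ((ps.map (List.map σ)).map List.prod).prod = (ps.map List.prod).prod := by
      rw [map_list_prod, List.map_map, List.map_map]
      congr 1
      apply List.map_congr_left
      intro v hv
      show f (v.map σ).prod = v.prod
      rw [map_list_prod, List.map_map]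
      congr 1
      conv_rhs => rw [← List.map_id v]
      apply List.map_congr_left
      intro y hy
      exact (hσ y ((h2 v hv).1 y hy)).2
    rw [MonoidHom.mem_ker, map_mul, map_inv, key, h3, inv_mul_cancel]

end PP

/-! ### refined versions of the steps: the commutators involve a generator -/

theorem abelian_step' {E : Type*} [Group E] {k : ℕ} (x : Fin k → E)
    (hx : closure (Set.range x) = ⊤) (N : Subgroup E) [hN : N.Normal]
    (hab : ⁅N, N⁆ = ⊥) (g : E) (hg : g ∈ ⁅N, (⊤ : Subgroup E)⁆) :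
    ∃ u : Fin k → E, g = (List.ofFn (fun l => ⁅x l, u l⁆)).prod := by
  have hcomm : ∀ a ∈ N, ∀ b ∈ N, a * b = b * a := by
    intro a ha b hb
    have h := commutator_mem_commutator ha hb
    rw [hab, mem_bot, commutatorElement_eq_one_iff_mul_comm] at h
    exact h
  letI : CommGroup N := { (inferInstance : Group N) with
    mul_comm := fun a b => Subtype.ext (hcomm a a.2 b b.2) }
  have hmem : ∀ (g : E) (a : N), ⁅g, (a : E)⁆ ∈ N := by
    intro g a
    rw [commutatorElement_def]
    exact mul_mem (hN.conj_mem _ a.2 g) (inv_mem a.2)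
  let τ : E → (N →* N) := fun g =>
    { toFun := fun a => ⟨⁅g, (a : E)⁆, hmem g a⟩
      map_one' := by ext; simp
      map_mul' := by
        intro a b
        ext
        show ⁅g, ((a * b : N) : E)⁆ = ⁅g, (a : E)⁆ * ⁅g, (b : E)⁆
        have h1 : ⁅g, (a : E)⁆ * ⁅g, (b : E)⁆ =
            (g * a * g⁻¹) * ((a : E)⁻¹ * ⁅g, (b : E)⁆) := by
          rw [commutatorElement_def g (a : E)]; group
        rw [h1, hcomm _ (inv_mem a.2) _ (hmem g b)]
        simp only [commutatorElement_def, Subgroup.coe_mul]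
        group }
  have hτ : ∀ g h a, τ (g * h) a = τ g (MulAut.conjNormal h a) * τ h a := by
    intro g h a
    ext
    show ⁅g * h, (a : E)⁆ = ⁅g, ((MulAut.conjNormal h a : N) : E)⁆ * ⁅h, (a : E)⁆
    rw [MulAut.conjNormal_apply]
    simp only [commutatorElement_def]
    group
  have hfox := fox τ hτ x hx
  have hle : ⁅N, (⊤ : Subgroup E)⁆ ≤ ((foxHom τ x).range).map N.subtype := by
    rw [commutator_le]
    intro a ha g _
    rw [← commutatorElement_inv]
    apply inv_mem
    exact ⟨τ g ⟨a, ha⟩, hfox g ⟨a, ha⟩, rfl⟩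
  obtain ⟨y, ⟨u, hu⟩, hy⟩ := hle hg
  refine ⟨fun l => (u l : E), ?_⟩
  rw [← hy, ← hu]
  show N.subtype (∏ l, τ (x l) (u l)) = _
  rw [← List.prod_ofFn, map_list_prod, List.map_ofFn]
  rfl

section Square

variable {E : Type*} [Group E] {P : Subgroup E}

/-- the square trick (Helper354), keeping the generators -/
theorem square_step' {k : ℕ} (x : Fin k → E) (hx : closure (Set.range x) = ⊤)
    (hz : ∀ p ∈ P, ∀ q ∈ P, ⁅p, q⁆ ∈ center E) [hP : P.Normal] (z : E) (hzP : z ∈ ⁅P, P⁆) :
    ∃ u : Fin k → E, z ^ 2 = (List.ofFn (fun l => ⁅x l, u l⁆)).prod *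
      ((List.ofFn (fun l => ⁅x l, (u l)⁻¹⁆)).prod)⁻¹ := by
  have hfox := fox (tau hz) (tau_mul hz) x hx
  set R := (foxHom (tau hz) x).range with hR
  let S : Subgroup E :=
    { carrier := {z | z ∈ center E ∧ ∃ h : ((z, z⁻¹) : E × E) ∈ GG hz,
        (QuotientGroup.mk (⟨_, h⟩ : GG hz) : AA hz) ∈ R}
      one_mem' := by
        refine ⟨one_mem _, ?_, ?_⟩
        · refine ⟨one_mem _, ?_, ?_⟩
          · show (1 : E)⁻¹ ∈ P
            rw [inv_one]; exact one_mem _
          · show (1 : E) * (1 : E)⁻¹ ∈ center E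
            rw [inv_one, mul_one]; exact one_mem _
        · have : (QuotientGroup.mk (⟨((1 : E), (1 : E)⁻¹), by
            refine ⟨one_mem _, ?_, ?_⟩
            · show (1 : E)⁻¹ ∈ P
              rw [inv_one]; exact one_mem _
            · show (1 : E) * (1 : E)⁻¹ ∈ center E
              rw [inv_one, mul_one]; exact one_mem _⟩ : GG hz) : AA hz) = 1 := by
            rw [QuotientGroup.eq_one_iff]
            exact ⟨by simp, one_mem _⟩
          rw [this]
          exact one_mem _
      mul_mem' := by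
        rintro a b ⟨ha, ha', ha''⟩ ⟨hb, hb', hb''⟩
        have e : (a * b)⁻¹ = a⁻¹ * b⁻¹ := by
          rw [mul_inv_rev]
          exact (mem_center_iff.mp (inv_mem ha) b⁻¹)
        have e' : ((a * b, (a * b)⁻¹) : E × E) = (a, a⁻¹) * (b, b⁻¹) := by
          rw [e]; rfl
        refine ⟨mul_mem ha hb, ?_, ?_⟩
        · rw [e']; exact mul_mem ha' hb'
        · have := mul_mem ha'' hb''
          rw [← QuotientGroup.mk_mul] at this
          convert this using 2
          exact Subtype.ext e'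
      inv_mem' := by
        rintro a ⟨ha, ha', ha''⟩
        refine ⟨inv_mem ha, ?_, ?_⟩
        · have := inv_mem ha'
          exact this
        · have := inv_mem ha''
          rw [← QuotientGroup.mk_inv] at this
          exact this }
  have hle : ⁅P, P⁆ ≤ S := by
    rw [commutator_le]
    intro p hp a ha
    have h1 : ((⁅p, a⁆, ⁅p, a⁆⁻¹) : E × E) = (⁅p, ((⟨a, ha⟩ : P) : E)⁆,
        ⁅p, (((⟨a, ha⟩ : P)⁻¹ : P) : E)⁆) := by
      apply Prod.ext
      · rfl
      · show ⁅p, a⁆⁻¹ = ⁅p, a⁻¹⁆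
        rw [c2_inv_right hz hp ha]
    refine ⟨hz p hp a ha, ?_, ?_⟩
    · rw [h1]; exact gg_mem hz p ⟨a, ha⟩
    · have := hfox p ⟨a, ha⟩
      convert this using 1
      show QuotientGroup.mk _ = QuotientGroup.mk _
      congr 1
      exact Subtype.ext h1
  obtain ⟨hzc, hzG, ⟨u, hu⟩⟩ := hle hzP
  have h2 : foxHom (tau hz) x u = QuotientGroup.mk
      ((List.ofFn (fun l => (⟨_, gg_mem hz (x l) (u l)⟩ : GG hz))).prod) := by
    show ∏ l, tau hz (x l) (u l) = _
    rw [← List.prod_ofFn]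
    rw [← QuotientGroup.coe_mk', map_list_prod, List.map_ofFn]
    rfl
  rw [h2, QuotientGroup.eq] at hu
  obtain ⟨hu1, hu2⟩ := hu
  have p1 : ((List.ofFn (fun l => (⟨_, gg_mem hz (x l) (u l)⟩ : GG hz))).prod : GG hz).1.1 =
      (List.ofFn (fun l => ⁅x l, (u l : E)⁆)).prod := by
    have : ∀ (w : GG hz), w.1.1 = ((MonoidHom.fst E E).comp (GG hz).subtype) w := fun _ => rfl
    rw [this, map_list_prod, List.map_ofFn]
    rfl
  have p2 : ((List.ofFn (fun l => (⟨_, gg_mem hz (x l) (u l)⟩ : GG hz))).prod : GG hz).1.2 =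
      (List.ofFn (fun l => ⁅x l, ((u l)⁻¹ : E)⁆)).prod := by
    have : ∀ (w : GG hz), w.1.2 = ((MonoidHom.snd E E).comp (GG hz).subtype) w := fun _ => rfl
    rw [this, map_list_prod, List.map_ofFn]
    rfl
  have q1 : (List.ofFn (fun l => ⁅x l, (u l : E)⁆)).prod⁻¹ * z =
      (List.ofFn (fun l => ⁅x l, ((u l)⁻¹ : E)⁆)).prod⁻¹ * z⁻¹ := by
    rw [← p1, ← p2]; exact hu1
  refine ⟨fun l => (u l : E), ?_⟩
  have : z = (List.ofFn (fun l => ⁅x l, (u l : E)⁆)).prod *
      ((List.ofFn (fun l => ⁅x l, ((u l)⁻¹ : E)⁆)).prod⁻¹ * z⁻¹) := by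
    rw [← q1]; group
  calc z ^ 2 = z * z := sq z
    _ = ((List.ofFn (fun l => ⁅x l, (u l : E)⁆)).prod *
      ((List.ofFn (fun l => ⁅x l, ((u l)⁻¹ : E)⁆)).prod⁻¹ * z⁻¹)) * z := by rw [← this]
    _ = _ := by group

end Square

section Lift

variable {G : Type*} [Group G] {k : ℕ}

theorem abelian_lift' (x : Fin k → G) (hx : closure (Set.range x) = ⊤) (D : Subgroup G) [D.Normal]
    {g : G} (hg : g ∈ ⁅D, (⊤ : Subgroup G)⁆) :
    ∃ u : Fin k → G, (List.ofFn (fun l => ⁅x l, u l⁆)).prod⁻¹ * g ∈ ⁅D, D⁆ := by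
  set f := QuotientGroup.mk' ⁅D, D⁆ with hf
  haveI : (D.map f).Normal := Subgroup.Normal.map ‹_› f (QuotientGroup.mk'_surjective _)
  obtain ⟨u, hu⟩ := abelian_step' (fun i => f (x i)) (gen_quot x hx _) (D.map f) (by
    rw [← Subgroup.map_commutator, Subgroup.map_eq_bot_iff, hf, QuotientGroup.ker_mk']) (f g) (by
    have h1 : (⊤ : Subgroup (G ⧸ ⁅D, D⁆)) = (⊤ : Subgroup G).map f := by
      rw [← MonoidHom.range_eq_map]
      exact (MonoidHom.range_eq_top.mpr (QuotientGroup.mk'_surjective _)).symm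
    rw [h1, ← Subgroup.map_commutator]
    exact Subgroup.mem_map_of_mem _ hg)
  choose v hv using fun l => QuotientGroup.mk'_surjective _ (u l)
  refine ⟨v, ?_⟩
  rw [← QuotientGroup.eq, ← QuotientGroup.coe_mk', ← hf, hu, map_list_prod, List.map_ofFn]
  congr 2
  funext l
  show f ⁅x l, v l⁆ = _
  rw [map_commutatorElement, hv]

theorem square_lift' (x : Fin k → G) (hx : closure (Set.range x) = ⊤) (D : Subgroup G) [D.Normal]
    {g : G} (hg : g ∈ ⁅D, D⁆) : ∃ u v : Fin k → G,
      ((List.ofFn (fun l => ⁅x l, u l⁆)).prod * ((List.ofFn (fun l => ⁅x l, v l⁆)).prod)⁻¹)⁻¹ *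
        g ^ 2 ∈ ⁅⁅D, D⁆, (⊤ : Subgroup G)⁆ := by
  set f := QuotientGroup.mk' ⁅⁅D, D⁆, (⊤ : Subgroup G)⁆ with hf
  haveI : (D.map f).Normal := Subgroup.Normal.map ‹_› f (QuotientGroup.mk'_surjective _)
  obtain ⟨u, hu⟩ := square_step' (P := D.map f) (fun i => f (x i)) (gen_quot x hx _) (by
    rintro p ⟨a, ha, rfl⟩ q ⟨b, hb, rfl⟩
    rw [← map_commutatorElement]
    exact central_quot _ _ (commutator_mem_commutator ha hb)) (f g) (by
    rw [← Subgroup.map_commutator]
    exact Subgroup.mem_map_of_mem _ hg)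
  choose v hv using fun l => QuotientGroup.mk'_surjective _ (u l)
  refine ⟨v, fun l => (v l)⁻¹, ?_⟩
  rw [← QuotientGroup.eq, ← QuotientGroup.coe_mk', ← hf, map_pow, hu, map_mul, map_inv,
    map_list_prod, map_list_prod, List.map_ofFn, List.map_ofFn]
  congr 3
  · funext l
    show f ⁅x l, v l⁆ = _
    rw [map_commutatorElement, hv]
  · congr 1
    funext l
    show f ⁅x l, (v l)⁻¹⁆ = _
    rw [map_commutatorElement, map_inv, hv]

end Lift

end Pool.Agent.Helper100.PalWidth
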