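import Pool.Agent.Helper100.PalWidth

set_option autoImplicit false

/-!
Palindromic width of finitely generated soluble groups: consequences.
-/

namespace Pool.Agent.Helper100.PalWidth

open Subgroup
open scoped commutatorElement
open Pool.Agent.Helper354.CWidth

section Steps

variable {G : Type*} [Group G] {S : Set G} {k : ℕ}

/-- every element is a product of `n` palindromes modulo `A` -/
def PW (S : Set G) (A : Subgroup G) : Prop := ∃ n : ℕ, ∀ g : G, ∃ w, PP S n w ∧ w⁻¹ * g ∈ A

/-- every element of `A` is a product of `n` palindromes modulo `B` -/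
def PS (S : Set G) (A B : Subgroup G) : Prop := ∃ n : ℕ, ∀ g ∈ A, ∃ w, PP S n w ∧ w⁻¹ * g ∈ B

theorem PW.step {A B : Subgroup G} (h1 : PW S A) (h2 : PS S A B) : PW S B := by
  obtain ⟨m, h1⟩ := h1
  obtain ⟨n, h2⟩ := h2
  refine ⟨m + n, fun g => ?_⟩
  obtain ⟨w, hw, hw'⟩ := h1 g
  obtain ⟨v, hv, hv'⟩ := h2 _ hw'
  refine ⟨w * v, hw.mul hv, ?_⟩
  have : (w * v)⁻¹ * g = v⁻¹ * (w⁻¹ * g) := by group
  rw [this]; exact hv'

theorem PS.trans {A B C : Subgroup G} (h1 : PS S A B) (h2 : PS S B C) : PS S A C := by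
  obtain ⟨m, h1⟩ := h1
  obtain ⟨n, h2⟩ := h2
  refine ⟨m + n, fun g hg => ?_⟩
  obtain ⟨w, hw, hw'⟩ := h1 g hg
  obtain ⟨v, hv, hv'⟩ := h2 _ hw'
  refine ⟨w * v, hw.mul hv, ?_⟩
  have : (w * v)⁻¹ * g = v⁻¹ * (w⁻¹ * g) := by group
  rw [this]; exact hv'

/-- `⁅D, G⁆` modulo `⁅D, D⁆` -/
theorem ps_abelian (hS : closure S = ⊤) (x : Fin k → G) (hx : closure (Set.range x) = ⊤)
    (hxS : ∀ l, x l ∈ S) (D : Subgroup G) [D.Normal] : PS S ⁅D, (⊤ : Subgroup G)⁆ ⁅D, D⁆ := by
  refine ⟨3 * k, fun g hg => ?_⟩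
  obtain ⟨u, hu⟩ := abelian_lift' x hx D hg
  exact ⟨_, PP.gens hS x hxS u, hu⟩

/-- squares of elements of `⁅D, D⁆` modulo `⁅⁅D, D⁆, G⁆` -/
theorem square_pp (hS : closure S = ⊤) (x : Fin k → G) (hx : closure (Set.range x) = ⊤)
    (hxS : ∀ l, x l ∈ S) (D : Subgroup G) [D.Normal] {g : G} (hg : g ∈ ⁅D, D⁆) :
    ∃ w, PP S (6 * k) w ∧ w⁻¹ * g ^ 2 ∈ ⁅⁅D, D⁆, (⊤ : Subgroup G)⁆ := by
  obtain ⟨u, v, huv⟩ := square_lift' x hx D hg
  exact ⟨_, ((PP.gens hS x hxS u).mul (PP.gens hS x hxS v).inv).mono (by omega), huv⟩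

/-- from commutators to palindromes: if every element of `G` is a product of `n` palindromes modulo
`D`, then products of `M` commutators are products of boundedly many palindromes modulo
`⁅D, G⁆` -/
theorem pc_pp (hS : closure S = ⊤) {n : ℕ} (D : Subgroup G) [D.Normal]
    (h : ∀ g : G, ∃ w, PP S n w ∧ w⁻¹ * g ∈ D) {M : ℕ} {c : G} (hc : PC M c) :
    ∃ w, PP S (M * (3 * n)) w ∧ w⁻¹ * c ∈ ⁅D, (⊤ : Subgroup G)⁆ := by
  have one : ∀ a b : G, ∃ w, PP S (3 * n) w ∧ w⁻¹ * ⁅a, b⁆ ∈ ⁅D, (⊤ : Subgroup G)⁆ := by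
    intro a b
    obtain ⟨w, hw, hw'⟩ := h a
    refine ⟨⁅w, b⁆, hw.comm_left hS b, ?_⟩
    have e : ⁅w, b⁆⁻¹ * ⁅a, b⁆ = (⁅w, b⁆⁻¹ * w) * ⁅w⁻¹ * a, b⁆ * (⁅w, b⁆⁻¹ * w)⁻¹ := by
      simp only [commutatorElement_def]; group
    rw [e]
    exact (inferInstance : (⁅D, (⊤ : Subgroup G)⁆).Normal).conj_mem _
      (commutator_mem_commutator hw' (mem_top b)) _
  obtain ⟨l, hl, rfl⟩ := hc
  subst hl
  induction l with
  | nil => exact ⟨1, PP.one _, by simp⟩
  | cons p l ih =>
    obtain ⟨w, hw, hw'⟩ := ih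
    obtain ⟨v, hv, hv'⟩ := one p.1 p.2
    refine ⟨v * w, ?_, ?_⟩
    · refine (hv.mul hw).mono (le_of_eq ?_)
      rw [List.length_cons]; ring
    · rw [List.map_cons, List.prod_cons]
      have e : (v * w)⁻¹ * (⁅p.1, p.2⁆ * (l.map (fun p => ⁅p.1, p.2⁆)).prod) =
          (w⁻¹ * (v⁻¹ * ⁅p.1, p.2⁆) * (w⁻¹)⁻¹) * (w⁻¹ * (l.map (fun p => ⁅p.1, p.2⁆)).prod) := by
        group
      rw [e]
      exact mul_mem ((inferInstance : (⁅D, (⊤ : Subgroup G)⁆).Normal).conj_mem _ hv' _) hw'

/-- the abelianization -/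
theorem pw_one (x : Fin k → G) (hx : closure (Set.range x) = ⊤)
    (hxS : ∀ l, x l ∈ S) : PW S (derivedSeries G 1) := by
  refine ⟨k * 1, fun g => ?_⟩
  let φ : (Fin k → Multiplicative ℤ) →* Abelianization G :=
    { toFun := fun a => ∏ l, (Abelianization.of (x l)) ^ (Multiplicative.toAdd (a l))
      map_one' := by simp
      map_mul' := by
        intro a b
        simp [Finset.prod_mul_distrib, zpow_add] }
  have hφ : (⊤ : Subgroup (Abelianization G)) ≤ φ.range := by
    have h1 : (⊤ : Subgroup (Abelianization G)) =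
        closure (Set.range (fun l => Abelianization.of (x l))) := by
      have h2 : Set.range (fun l => Abelianization.of (x l)) =
          (Abelianization.of : G →* Abelianization G) '' (Set.range x) := by
        rw [← Set.range_comp]; rfl
      rw [h2, ← MonoidHom.map_closure, hx, ← MonoidHom.range_eq_map]
      exact (MonoidHom.range_eq_top.mpr (QuotientGroup.mk'_surjective _)).symm
    rw [h1, closure_le]
    rintro _ ⟨l, rfl⟩
    classical
    refine ⟨Pi.mulSingle l (Multiplicative.ofAdd 1), ?_⟩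
    show ∏ m, (Abelianization.of (x m)) ^
      (Multiplicative.toAdd ((Pi.mulSingle l (Multiplicative.ofAdd 1) :
        Fin k → Multiplicative ℤ) m)) = _
    rw [Finset.prod_eq_single l]
    · simp
    · intro m _ hm
      rw [Pi.mulSingle_eq_of_ne hm]; simp
    · simp
  obtain ⟨a, ha⟩ := hφ (mem_top (Abelianization.of g))
  refine ⟨(List.ofFn (fun l => x l ^ (Multiplicative.toAdd (a l)))).prod,
    PP.ofFn _ (fun l => PP.gen_zpow (hxS l) _), ?_⟩
  rw [derivedSeries_one, ← Abelianization.ker_of, MonoidHom.mem_ker, map_mul, map_inv, ← ha,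
    map_list_prod, List.map_ofFn]
  have : (List.ofFn ((Abelianization.of : G →* Abelianization G) ∘
      fun l => x l ^ (Multiplicative.toAdd (a l)))).prod = φ a := by
    rw [List.prod_ofFn]
    show _ = ∏ l, (Abelianization.of (x l)) ^ (Multiplicative.toAdd (a l))
    apply Finset.prod_congr rfl
    intro l _
    show Abelianization.of (x l ^ (Multiplicative.toAdd (a l))) = _
    rw [map_zpow]
  rw [this, inv_mul_cancel]

/-- commutators of bounded number give the next step -/
theorem pw_succ_of_pc (hS : closure S = ⊤) (x : Fin k → G) (hx : closure (Set.range x) = ⊤)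
    (hxS : ∀ l, x l ∈ S) (D : Subgroup G) [D.Normal] (hD : PW S D) (M : ℕ)
    (hM : ∀ g ∈ D, ∃ w, PC M w ∧ w⁻¹ * g ∈ ⁅D, (⊤ : Subgroup G)⁆) : PW S ⁅D, D⁆ := by
  obtain ⟨n, hn⟩ := hD
  have h1 : PS S D ⁅D, (⊤ : Subgroup G)⁆ := by
    refine ⟨M * (3 * n), fun g hg => ?_⟩
    obtain ⟨w, hw, hw'⟩ := hM g hg
    obtain ⟨v, hv, hv'⟩ := pc_pp hS D hn hw
    refine ⟨v, hv, ?_⟩
    have : v⁻¹ * g = (v⁻¹ * w) * (w⁻¹ * g) := by group
    rw [this]
    exact mul_mem hv' hw'
  exact PW.step ⟨n, hn⟩ (h1.trans (ps_abelian hS x hx hxS D))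

/-- finite palindromic width modulo the third derived group -/
theorem pw_three (hS : closure S = ⊤) (x : Fin k → G) (hx : closure (Set.range x) = ⊤)
    (hxS : ∀ l, x l ∈ S) : PW S (derivedSeries G 3) := by
  have h1 := pw_one (S := S) x hx hxS
  have h2 : PW S (derivedSeries G 2) :=
    pw_succ_of_pc hS x hx hxS (derivedSeries G 1) h1 k (fun g hg => by
      have := v1_lift x hx (g := g) hg
      exact this)
  exact pw_succ_of_pc hS x hx hxS (derivedSeries G 2) h2 (k * k) (fun g hg =>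
    v2_lift x hx (derivedSeries G 1) rfl hg)

/-- one step of the derived series if all elements are squares modulo `⁅D, G⁆` -/
theorem ps_root (hS : closure S = ⊤) (x : Fin k → G) (hx : closure (Set.range x) = ⊤)
    (hxS : ∀ l, x l ∈ S) (i : ℕ)
    (hyp : ∀ g ∈ derivedSeries G (i + 1), ∃ h ∈ derivedSeries G (i + 1),
      (h ^ 2)⁻¹ * g ∈ ⁅derivedSeries G (i + 1), (⊤ : Subgroup G)⁆) :
    PS S (derivedSeries G (i + 1)) (derivedSeries G (i + 2)) := by
  have h1 : PS S (derivedSeries G (i + 1)) ⁅derivedSeries G (i + 1), (⊤ : Subgroup G)⁆ := by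
    refine ⟨6 * k, fun g hg => ?_⟩
    obtain ⟨h, hh, hgh⟩ := hyp g hg
    obtain ⟨w, hw, hw'⟩ := square_pp hS x hx hxS (derivedSeries G i) hh
    refine ⟨w, hw, ?_⟩
    have : w⁻¹ * g = (w⁻¹ * h ^ 2) * ((h ^ 2)⁻¹ * g) := by group
    rw [this]
    exact mul_mem hw' hgh
  exact h1.trans (ps_abelian hS x hx hxS (derivedSeries G (i + 1)))

theorem pw_divisible (hS : closure S = ⊤) (x : Fin k → G) (hx : closure (Set.range x) = ⊤)
    (hxS : ∀ l, x l ∈ S)
    (hyp : ∀ i, 3 ≤ i → ∀ g ∈ derivedSeries G i, ∃ h ∈ derivedSeries G i,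
      (h ^ 2)⁻¹ * g ∈ ⁅derivedSeries G i, (⊤ : Subgroup G)⁆) (j : ℕ) :
    PW S (derivedSeries G (j + 3)) := by
  induction j with
  | zero => exact pw_three hS x hx hxS
  | succ j ih => exact PW.step ih (ps_root hS x hx hxS (j + 2) (hyp (j + 3) (by omega)))

/-- powers of two -/
theorem pw_pow (hS : closure S = ⊤) (x : Fin k → G) (hx : closure (Set.range x) = ⊤)
    (hxS : ∀ l, x l ∈ S) (j : ℕ) : ∃ n : ℕ, ∀ g : G, ∃ w, PP S n w ∧
      w⁻¹ * g ^ (2 ^ j) ∈ derivedSeries G (j + 3) := by
  induction j with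
  | zero =>
    obtain ⟨n, hn⟩ := pw_three (S := S) hS x hx hxS
    exact ⟨n, fun g => by simpa using hn g⟩
  | succ j ih =>
    obtain ⟨n, hn⟩ := ih
    obtain ⟨m, hm⟩ := ps_abelian (S := S) hS x hx hxS (derivedSeries G (j + 3))
    refine ⟨n + n + 3 * n + (6 * k + m), fun g => ?_⟩
    obtain ⟨w, hw, hw'⟩ := hn g
    set r := w⁻¹ * g ^ (2 ^ j) with hr
    obtain ⟨v, hv, hv'⟩ := square_pp (S := S) hS x hx hxS (derivedSeries G (j + 2)) hw'
    obtain ⟨u, hu, hu'⟩ := hm _ hv'
    refine ⟨w * w * ⁅w⁻¹, r⁆ * (v * u), ?_, ?_⟩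
    · exact ((hw.mul hw).mul (hw.inv.comm_left hS r)).mul (hv.mul hu)
    · have e1 : g ^ (2 ^ (j + 1)) = w * w * ⁅w⁻¹, r⁆ * r ^ 2 := by
        have e2 : g ^ (2 ^ j) = w * r := by rw [hr]; group
        rw [pow_succ, pow_mul, e2]
        simp only [commutatorElement_def, pow_two]
        group
      have e3 : (w * w * ⁅w⁻¹, r⁆ * (v * u))⁻¹ * g ^ (2 ^ (j + 1)) = u⁻¹ * (v⁻¹ * r ^ 2) := by
        rw [e1]; group
      rw [e3]
      exact hu'

/-- finite commutator width gives finite palindromic width -/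
theorem pw_comm (hS : closure S = ⊤) (x : Fin k → G) (hx : closure (Set.range x) = ⊤)
    (hxS : ∀ l, x l ∈ S) (M : ℕ) (hM : ∀ g ∈ derivedSeries G 1, PC M g) (j : ℕ) :
    PW S (derivedSeries G (j + 1)) := by
  induction j with
  | zero => exact pw_one x hx hxS
  | succ j ih =>
    refine pw_succ_of_pc hS x hx hxS (derivedSeries G (j + 1)) ih M (fun g hg => ?_)
    exact ⟨g, hM g (derivedSeries_antitone G (by omega : 1 ≤ j + 1) hg), by
      rw [inv_mul_cancel]; exact one_mem _⟩

/-- enumeration of a finite generating set -/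
theorem enum (S : Finset G) (hS : closure (S : Set G) = ⊤) :
    ∃ (k : ℕ) (x : Fin k → G), closure (Set.range x) = ⊤ ∧ ∀ l, x l ∈ (S : Set G) := by
  refine ⟨S.card, fun l => (S.equivFin.symm l : G), ?_, fun l => (S.equivFin.symm l).2⟩
  rw [← hS]
  congr 1
  ext y
  constructor
  · rintro ⟨l, rfl⟩
    exact (S.equivFin.symm l).2
  · intro hy
    exact ⟨S.equivFin ⟨y, hy⟩, by simp⟩

theorem PW.to_bot {A : Subgroup G} (hA : A = ⊥) (h : PW S A) : ∃ n : ℕ, ∀ g : G, PP S n g := by
  obtain ⟨n, hn⟩ := h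
  refine ⟨n, fun g => ?_⟩
  obtain ⟨w, hw, hw'⟩ := hn g
  rw [hA, mem_bot, inv_mul_eq_one] at hw'
  rwa [← hw']

end Steps

/-- finite palindromic width with respect to every finite generating set -/
def Fin' (G : Type) [Group G] : Prop :=
  ∀ S : Finset G, closure (S : Set G) = ⊤ → ∃ n : ℕ, ∀ g : G, PP (S : Set G) n g

theorem fin_divisible (G : Type) [Group G] (hG : IsSolvable G)
    (hyp : ∀ i, 3 ≤ i → ∀ g ∈ derivedSeries G i, ∃ h ∈ derivedSeries G i,
      (h ^ 2)⁻¹ * g ∈ ⁅derivedSeries G i, (⊤ : Subgroup G)⁆) : Fin' G := by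
  intro S hS
  obtain ⟨k, x, hx, hxS⟩ := enum S hS
  obtain ⟨d, hd⟩ := hG.solvable
  exact (pw_divisible hS x hx hxS hyp d).to_bot (by
    rw [eq_bot_iff, ← hd]; exact derivedSeries_antitone G (by omega))

theorem fin_comm (G : Type) [Group G] (hG : IsSolvable G) (M : ℕ)
    (hM : ∀ g ∈ derivedSeries G 1, PC M g) : Fin' G := by
  intro S hS
  obtain ⟨k, x, hx, hxS⟩ := enum S hS
  obtain ⟨d, hd⟩ := hG.solvable
  exact (pw_comm hS x hx hxS M hM d).to_bot (by
    rw [eq_bot_iff, ← hd]; exact derivedSeries_antitone G (by omega))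

/-- reduction to the case that the last term of the derived series is central of exponent two -/
theorem fin_reduction
    (H : ∀ (G : Type) [Group G], (∃ d, 3 ≤ d ∧ derivedSeries G (d + 1) = ⊥ ∧
      derivedSeries G d ≠ ⊥ ∧ ∀ z ∈ derivedSeries G d, z ^ 2 = 1 ∧ z ∈ center G) → Fin' G)
    (G : Type) [Group G] (hG : IsSolvable G) : Fin' G := by
  classical
  intro S hS
  obtain ⟨k, x, hx, hxS⟩ := enum S hS
  have key : ∀ j, PW (S : Set G) (derivedSeries G (j + 3)) := by
    intro j
    induction j with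
    | zero => exact pw_three hS x hx hxS
    | succ j ih =>
      set D := derivedSeries G (j + 3) with hD
      haveI hn1 : (closure {x : G | ∃ y ∈ D, x = y ^ 2}).Normal := by
        have h : closure {x : G | ∃ y ∈ D, x = y ^ 2} =
            normalClosure {x : G | ∃ y ∈ D, x = y ^ 2} := by
          apply le_antisymm
          · exact closure_le_normalClosure
          · rw [normalClosure, closure_le]
            intro z hz
            apply Subgroup.subset_closure
            rw [Group.mem_conjugatesOfSet_iff] at hz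
            obtain ⟨a, ⟨y, hy, rfl⟩, hc⟩ := hz
            rw [isConj_iff] at hc
            obtain ⟨c, rfl⟩ := hc
            exact ⟨c * y * c⁻¹, (inferInstance : D.Normal).conj_mem _ hy c, conj_pow.symm⟩
        rw [h]
        infer_instance
      set K : Subgroup G := ⁅D, (⊤ : Subgroup G)⁆ ⊔ closure {x | ∃ y ∈ D, x = y ^ 2} with hK
      haveI hn2 : K.Normal := by rw [hK]; infer_instance
      have hKD : K ≤ D := by
        rw [hK, sup_le_iff]
        refine ⟨commutator_le_left _ _, ?_⟩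
        rw [closure_le]
        rintro _ ⟨y, hy, rfl⟩
        exact pow_mem hy 2
      have h1 : PW (S : Set G) K := by
        set f := QuotientGroup.mk' K with hf
        have hsurj := QuotientGroup.mk'_surjective K
        have hmap : ∀ n, (derivedSeries G n).map f = derivedSeries (G ⧸ K) n := fun n =>
          map_derivedSeries_eq hsurj n
        by_cases hbot : derivedSeries (G ⧸ K) (j + 3) = ⊥
        · have hDK : D ≤ K := by
            rw [← hmap, Subgroup.map_eq_bot_iff, hf, QuotientGroup.ker_mk'] at hbot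
            exact hbot
          obtain ⟨n, hn⟩ := ih
          refine ⟨n, fun g => ?_⟩
          obtain ⟨w, hw, hw'⟩ := hn g
          exact ⟨w, hw, hDK hw'⟩
        · have hcen : ∀ z ∈ derivedSeries (G ⧸ K) (j + 3), z ^ 2 = 1 ∧ z ∈ center (G ⧸ K) := by
            intro z hz
            rw [← hmap] at hz
            obtain ⟨y, hy, rfl⟩ := hz
            constructor
            · rw [← map_pow]
              refine (QuotientGroup.eq_one_iff _).mpr ?_
              exact mem_sup_right (Subgroup.subset_closure ⟨y, hy, rfl⟩)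
            · rw [mem_center_iff]
              intro h
              obtain ⟨h, rfl⟩ := hsurj h
              rw [← map_mul, ← map_mul]
              show (QuotientGroup.mk (h * y) : G ⧸ K) = QuotientGroup.mk (y * h)
              rw [QuotientGroup.eq]
              have h1 : (h * y)⁻¹ * (y * h) = ⁅y⁻¹, h⁻¹⁆ := by
                simp only [commutatorElement_def]; group
              rw [h1]
              exact mem_sup_left (commutator_mem_commutator (inv_mem hy) (mem_top _))
          have hlast : derivedSeries (G ⧸ K) (j + 3 + 1) = ⊥ := by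
            rw [derivedSeries_succ, commutator_eq_bot_iff_le_centralizer]
            intro z hz
            rw [mem_centralizer_iff]
            intro y _
            exact (mem_center_iff.mp (hcen z hz).2 y)
          have hfin := H (G ⧸ K) ⟨j + 3, by omega, hlast, hbot, hcen⟩
          have hgen : closure ((S.image f : Finset (G ⧸ K)) : Set (G ⧸ K)) = ⊤ := by
            rw [Finset.coe_image, ← MonoidHom.map_closure, hS, ← MonoidHom.range_eq_map]
            exact MonoidHom.range_eq_top.mpr hsurj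
          obtain ⟨n, hn⟩ := hfin _ hgen
          refine ⟨n, fun g => ?_⟩
          have hg := hn (f g)
          rw [Finset.coe_image] at hg
          obtain ⟨w, hw, hw'⟩ := PP.lift f hg
          rw [hf, QuotientGroup.ker_mk'] at hw'
          exact ⟨w, hw, hw'⟩
      have h2 : PS (S : Set G) K ⁅D, (⊤ : Subgroup G)⁆ := by
        refine ⟨6 * k, fun g hg => ?_⟩
        let T : Subgroup G :=
          { carrier := {s | ∃ t ∈ D, (t ^ 2)⁻¹ * s ∈ ⁅D, (⊤ : Subgroup G)⁆}
            one_mem' := ⟨1, one_mem _, by simp⟩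
            mul_mem' := by
              rintro a b ⟨t, ht, hta⟩ ⟨u, hu, hub⟩
              refine ⟨t * u, mul_mem ht hu, ?_⟩
              rw [← QuotientGroup.eq] at hta hub ⊢
              have hc := mem_center_iff.mp (central_quot D t ht)
                (QuotientGroup.mk' ⁅D, (⊤ : Subgroup G)⁆ u)
              have hc' : Commute (QuotientGroup.mk' ⁅D, (⊤ : Subgroup G)⁆ t)
                (QuotientGroup.mk' ⁅D, (⊤ : Subgroup G)⁆ u) := hc.symm
              rw [← QuotientGroup.coe_mk'] at hta hub ⊢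
              rw [map_mul _ a b, ← hta, ← hub, map_pow, map_mul, hc'.mul_pow, map_pow, map_pow]
            inv_mem' := by
              rintro a ⟨t, ht, hta⟩
              refine ⟨t⁻¹, inv_mem ht, ?_⟩
              rw [← QuotientGroup.eq] at hta ⊢
              rw [← QuotientGroup.coe_mk'] at hta ⊢
              rw [inv_pow, map_inv, map_inv, hta] }
        have hle : K ≤ T := by
          rw [hK, sup_le_iff, closure_le]
          refine ⟨fun a ha => ⟨1, one_mem _, by simpa using ha⟩, ?_⟩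
          rintro _ ⟨y, hy, rfl⟩
          exact ⟨y, hy, by rw [inv_mul_cancel]; exact one_mem _⟩
        obtain ⟨t, ht, hts⟩ := hle hg
        obtain ⟨w, hw, hw'⟩ := square_pp (S := (S : Set G)) hS x hx hxS
          (derivedSeries G (j + 2)) ht
        refine ⟨w, hw, ?_⟩
        have : w⁻¹ * g = (w⁻¹ * t ^ 2) * ((t ^ 2)⁻¹ * g) := by group
        rw [this]
        exact mul_mem hw' hts
      exact PW.step h1 (h2.trans (ps_abelian hS x hx hxS D))
  obtain ⟨d, hd⟩ := hG.solvable
  exact (key d).to_bot (by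
    rw [eq_bot_iff, ← hd]; exact derivedSeries_antitone G (by omega))

end Pool.Agent.Helper100.PalWidth
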